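import Pool.Agent.Helper73.RC.MEANG

/-! Row PHI (MP_c9c10f, all colourings): the pair correlation of an arbitrary function `c : ℂ → {1, -1}`,
averaged over all translations and all rotations of the plane by invariant means, is a radial positive
definite function; window inequalities pass to it. -/

set_option autoImplicit false

open Filter Topology

namespace Pool.Agent.Helper91.RA

open Pool.Agent.Helper73.RC

section General
variable {G : Type*} [AddCommGroup G] {M : (G → ℝ) → ℝ}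

theorem mean_abs_le (h : IsMean M) {f : G → ℝ} {C : ℝ} (hC : ∀ x, |f x| ≤ C) : |M f| ≤ C := by
  have hf : Bd f := ⟨C, hC⟩
  rw [abs_le]
  constructor
  · have h1 := h.mono (Bd.const (-C)) hf fun x => (abs_le.1 (hC x)).1
    rwa [h.const] at h1
  · have h1 := h.mono hf (Bd.const C) fun x => (abs_le.1 (hC x)).2
    rwa [h.const] at h1

end General

section Corr
variable {c : ℂ → ℝ} {M : (ℂ → ℝ) → ℝ}

theorem bd_corr (hc : ∀ z, c z = 1 ∨ c z = -1) (f g : ℂ → ℂ) : Bd fun x => c (f x) * c (g x) := by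
  refine ⟨1, fun x => ?_⟩
  show |c (f x) * c (g x)| ≤ 1
  rcases hc (f x) with h1 | h1 <;> rcases hc (g x) with h2 | h2 <;> rw [h1, h2] <;> norm_num

/-- the correlation at the displacement `w`, mean over all translations -/
noncomputable def cor (M : (ℂ → ℝ) → ℝ) (c : ℂ → ℝ) (w : ℂ) : ℝ := M fun x => c x * c (x + w)

theorem cor_abs_le (hM : IsMean M) (hc : ∀ z, c z = 1 ∨ c z = -1) (w : ℂ) : |cor M c w| ≤ 1 := by
  refine mean_abs_le hM fun x => ?_
  rcases hc x with h1 | h1 <;> rcases hc (x + w) with h2 | h2 <;> rw [h1, h2] <;> norm_num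

theorem cor_zero (hM : IsMean M) (hc : ∀ z, c z = 1 ∨ c z = -1) : cor M c 0 = 1 := by
  have h : (fun x => c x * c (x + 0)) = fun _ => 1 := by
    funext x
    rw [add_zero]
    rcases hc x with h1 | h1 <;> rw [h1] <;> norm_num
  rw [cor, h, hM.one]

theorem mean_pair (hM : IsMean M) (hc : ∀ z, c z = 1 ∨ c z = -1) (p q : ℂ) :
    M (fun x => c (x + p) * c (x + q)) = cor M c (q - p) := by
  have h1 := hM.inv (fun x => c x * c (x + (q - p))) p (bd_corr hc (fun x => x) fun x => x + (q - p))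
  rw [cor, ← h1]
  congr 1
  funext x
  congr 2
  ring

/-- positive definiteness of the correlation -/
theorem cor_posDef (hM : IsMean M) (hc : ∀ z, c z = 1 ∨ c z = -1) {ι : Type*} (s : Finset ι) (x : ι → ℂ)
    (w : ι → ℝ) : 0 ≤ ∑ i ∈ s, ∑ j ∈ s, w i * w j * cor M c (x i - x j) := by
  have hb : ∀ i j, Bd fun z => w i * w j * (c (z + x j) * c (z + x i)) := fun i j =>
    (bd_corr hc (fun z => z + x j) fun z => z + x i).smul _
  have h1 : ∀ i ∈ s, Bd (fun z => ∑ j ∈ s, w i * w j * (c (z + x j) * c (z + x i))) ∧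
      M (fun z => ∑ j ∈ s, w i * w j * (c (z + x j) * c (z + x i))) =
        ∑ j ∈ s, w i * w j * cor M c (x i - x j) := by
    intro i _
    obtain ⟨h2, h3⟩ := hM.sum s (fun j z => w i * w j * (c (z + x j) * c (z + x i))) fun j _ => hb i j
    refine ⟨h2, h3.trans (Finset.sum_congr rfl fun j _ => ?_)⟩
    rw [hM.smul _ _ (bd_corr hc (fun z => z + x j) fun z => z + x i), mean_pair hM hc]
  obtain ⟨h2, h3⟩ := hM.sum s (fun i z => ∑ j ∈ s, w i * w j * (c (z + x j) * c (z + x i)))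
    fun i hi => (h1 i hi).1
  have h4 : M (fun z => ∑ i ∈ s, ∑ j ∈ s, w i * w j * (c (z + x j) * c (z + x i))) =
      ∑ i ∈ s, ∑ j ∈ s, w i * w j * cor M c (x i - x j) :=
    h3.trans (Finset.sum_congr rfl fun i hi => (h1 i hi).2)
  rw [← h4]
  refine hM.nonneg _ h2 fun z => ?_
  have h5 : ∑ i ∈ s, ∑ j ∈ s, w i * w j * (c (z + x j) * c (z + x i)) =
      (∑ i ∈ s, w i * c (z + x i)) * ∑ j ∈ s, w j * c (z + x j) := by
    rw [Finset.sum_mul_sum]
    refine Finset.sum_congr rfl fun i _ => Finset.sum_congr rfl fun j _ => ?_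
    ring
  rw [h5]
  exact mul_self_nonneg _

/-- window inequalities for the correlation; `h` is a bounded potential which telescopes -/
theorem cor_window (hM : IsMean M) (hc : ∀ z, c z = 1 ∨ c z = -1) {ι : Type*} (s : Finset ι)
    (a : ι → ℝ) (p q : ι → ℂ) (K : ℝ) (h : ℂ → ℝ) (hh : Bd h) (e : ℂ)
    (hw : ∀ z, ∑ t ∈ s, a t * (c (z + p t) * c (z + q t)) + h z - h (z + e) ≤ K) :
    ∑ t ∈ s, a t * cor M c (q t - p t) ≤ K := by
  obtain ⟨h2, h3⟩ := hM.sum s (fun t z => a t * (c (z + p t) * c (z + q t))) fun t _ =>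
    (bd_corr hc (fun z => z + p t) fun z => z + q t).smul _
  have h4 : M (fun z => ∑ t ∈ s, a t * (c (z + p t) * c (z + q t))) =
      ∑ t ∈ s, a t * cor M c (q t - p t) := by
    refine h3.trans (Finset.sum_congr rfl fun t _ => ?_)
    rw [hM.smul _ _ (bd_corr hc (fun z => z + p t) fun z => z + q t), mean_pair hM hc]
  have hb1 : Bd fun z => ∑ t ∈ s, a t * (c (z + p t) * c (z + q t)) + h z := h2.add hh
  have hb2 : Bd fun z => ∑ t ∈ s, a t * (c (z + p t) * c (z + q t)) + h z - h (z + e) := by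
    have := hb1.add ((hh.shift e).smul (-1))
    refine (show (fun z => ∑ t ∈ s, a t * (c (z + p t) * c (z + q t)) + h z - h (z + e)) =
      fun z => (∑ t ∈ s, a t * (c (z + p t) * c (z + q t)) + h z) + (-1) * h (z + e) by
        funext z; ring) ▸ this
  have h5 := hM.mono hb2 (Bd.const K) hw
  rw [hM.const, hM.sub hb1 (hh.shift e), hM.add _ _ h2 hh, hM.inv h e hh, h4] at h5
  linarith

end Corr

section Radial

theorem toMul_coe_zero : ((Additive.toMul (0 : Additive Circle) : Circle) : ℂ) = 1 := rfl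

variable {c : ℂ → ℝ} {M : (ℂ → ℝ) → ℝ} {N : (Additive Circle → ℝ) → ℝ}

/-- the correlation averaged over all rotations -/
noncomputable def rad (N : (Additive Circle → ℝ) → ℝ) (M : (ℂ → ℝ) → ℝ) (c : ℂ → ℝ) (w : ℂ) : ℝ :=
  N fun θ => cor M c ((Additive.toMul θ : Circle) * w)

theorem bd_rot (hM : IsMean M) (hc : ∀ z, c z = 1 ∨ c z = -1) (w : ℂ) :
    Bd fun θ : Additive Circle => cor M c ((Additive.toMul θ : Circle) * w) :=
  ⟨1, fun _ => cor_abs_le hM hc _⟩

theorem rad_abs_le (hN : IsMean N) (hM : IsMean M) (hc : ∀ z, c z = 1 ∨ c z = -1) (w : ℂ) :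
    |rad N M c w| ≤ 1 :=
  mean_abs_le hN fun _ => cor_abs_le hM hc _

theorem rad_zero (hN : IsMean N) (hM : IsMean M) (hc : ∀ z, c z = 1 ∨ c z = -1) :
    rad N M c 0 = 1 := by
  have h : (fun θ : Additive Circle => cor M c ((Additive.toMul θ : Circle) * 0)) = fun _ => 1 := by
    funext θ
    rw [mul_zero, cor_zero hM hc]
  rw [rad, h, hN.one]

theorem rad_rot (hN : IsMean N) (hM : IsMean M) (hc : ∀ z, c z = 1 ∨ c z = -1) (ξ : Circle) (w : ℂ) :
    rad N M c (ξ * w) = rad N M c w := by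
  have h1 := hN.inv (fun θ : Additive Circle => cor M c ((Additive.toMul θ : Circle) * w))
    (Additive.ofMul ξ) (bd_rot hM hc w)
  rw [rad, rad, ← h1]
  congr 1
  funext θ
  congr 1
  rw [toMul_add, toMul_ofMul, Circle.coe_mul, mul_assoc]

theorem rad_eq (hN : IsMean N) (hM : IsMean M) (hc : ∀ z, c z = 1 ∨ c z = -1) {v w : ℂ}
    (h : ‖v‖ = ‖w‖) : rad N M c v = rad N M c w := by
  by_cases hw : w = 0
  · rw [hw, norm_zero, norm_eq_zero] at h
    rw [h, hw]
  · have hw' : ‖w‖ ≠ 0 := norm_ne_zero_iff.2 hw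
    have hξ : ‖v / w‖ = 1 := by rw [norm_div, h, div_self hw']
    have h1 : v = ((⟨v / w, mem_sphere_zero_iff_norm.2 hξ⟩ : Circle) : ℂ) * w := by
      show v = v / w * w
      rw [div_mul_cancel₀ _ hw]
    rw [h1]
    exact rad_rot hN hM hc _ w

theorem rad_sum (hN : IsMean N) (hM : IsMean M) (hc : ∀ z, c z = 1 ∨ c z = -1) {ι : Type*}
    (s : Finset ι) (a : ι → ℝ) (w : ι → ℂ) :
    Bd (fun θ : Additive Circle => ∑ t ∈ s, a t * cor M c ((Additive.toMul θ : Circle) * w t)) ∧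
    N (fun θ => ∑ t ∈ s, a t * cor M c ((Additive.toMul θ : Circle) * w t)) =
      ∑ t ∈ s, a t * rad N M c (w t) := by
  obtain ⟨h2, h3⟩ := hN.sum s
    (fun t (θ : Additive Circle) => a t * cor M c ((Additive.toMul θ : Circle) * w t))
    fun t _ => (bd_rot hM hc (w t)).smul _
  refine ⟨h2, h3.trans (Finset.sum_congr rfl fun t _ => ?_)⟩
  rw [hN.smul _ _ (bd_rot hM hc (w t)), rad]

theorem rad_posDef (hN : IsMean N) (hM : IsMean M) (hc : ∀ z, c z = 1 ∨ c z = -1) {ι : Type*}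
    (s : Finset ι) (x : ι → ℂ) (w : ι → ℝ) :
    0 ≤ ∑ i ∈ s, ∑ j ∈ s, w i * w j * rad N M c (x i - x j) := by
  obtain ⟨h2, h3⟩ := rad_sum hN hM hc (s ×ˢ s) (fun t => w t.1 * w t.2) fun t => x t.1 - x t.2
  rw [Finset.sum_product] at h3
  rw [← h3]
  refine hN.nonneg _ h2 fun θ => ?_
  have h4 := cor_posDef hM hc s (fun i => (Additive.toMul θ : Circle) * x i) w
  rw [Finset.sum_product]
  refine h4.trans_eq (Finset.sum_congr rfl fun i _ => Finset.sum_congr rfl fun j _ => ?_)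
  show _ = w i * w j * cor M c (_ * (x i - x j))
  rw [mul_sub]

theorem rad_window (hN : IsMean N) (hM : IsMean M) (hc : ∀ z, c z = 1 ∨ c z = -1) {ι : Type*}
    (s : Finset ι) (a : ι → ℝ) (p q : ι → ℂ) (K : ℝ) (h : ℂ → ℂ → ℝ) (hh : ∀ u, Bd fun z => h z u)
    (e : ℂ) (hw : ∀ z u, ‖u‖ = 1 →
      ∑ t ∈ s, a t * (c (z + u * p t) * c (z + u * q t)) + h z u - h (z + u * e) u ≤ K) :
    ∑ t ∈ s, a t * rad N M c (q t - p t) ≤ K := by
  obtain ⟨h2, h3⟩ := rad_sum hN hM hc s a fun t => q t - p t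
  rw [← h3]
  have h4 := hN.mono h2 (Bd.const K) fun θ => ?_
  · rwa [hN.const] at h4
  · have h5 := cor_window hM hc s a (fun t => (Additive.toMul θ : Circle) * p t)
      (fun t => (Additive.toMul θ : Circle) * q t) K (fun z => h z (Additive.toMul θ : Circle))
      (hh _) ((Additive.toMul θ : Circle) * e)
      (fun z => hw z _ (Circle.norm_coe _))
    refine le_trans (le_of_eq (Finset.sum_congr rfl fun t _ => ?_)) h5
    rw [mul_sub]

end Radial

/-- PHI: radial positive definite function with the window inequalities -/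
theorem phi (c : ℂ → ℝ) (hc : ∀ z, c z = 1 ∨ c z = -1) :
    ∃ F : ℝ → ℝ, F 0 = 1 ∧ (∀ s, |F s| ≤ 1) ∧
      (∀ (ι : Type) [Fintype ι] (x : ι → ℂ) (w : ι → ℝ),
        0 ≤ ∑ i, ∑ j, w i * w j * F (Complex.normSq (x i - x j))) ∧
      ∀ (ι : Type) [Fintype ι] (a : ι → ℝ) (p q : ι → ℂ) (K B : ℝ) (h : ℂ → ℂ → ℝ) (e : ℂ),
        (∀ z u, |h z u| ≤ B) →
        (∀ z u : ℂ, ‖u‖ = 1 →
          ∑ t, a t * (c (z + u * p t) * c (z + u * q t)) + h z u - h (z + u * e) u ≤ K) →
        ∑ t, a t * F (Complex.normSq (q t - p t)) ≤ K := by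
  obtain ⟨M, hM⟩ := exists_mean_group ℂ
  obtain ⟨N, hN⟩ := exists_mean_group (Additive Circle)
  have key : ∀ v : ℂ, rad N M c ((√(Complex.normSq v) : ℝ) : ℂ) = rad N M c v := fun v => by
    refine rad_eq hN hM hc ?_
    rw [Complex.norm_real, Real.norm_eq_abs, abs_of_nonneg (Real.sqrt_nonneg _),
      Complex.normSq_eq_norm_sq, Real.sqrt_sq (norm_nonneg _)]
  refine ⟨fun s => rad N M c ((√s : ℝ) : ℂ), ?_, fun s => rad_abs_le hN hM hc _, ?_, ?_⟩
  · show rad N M c ((√(0 : ℝ) : ℝ) : ℂ) = 1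
    rw [Real.sqrt_zero, Complex.ofReal_zero, rad_zero hN hM hc]
  · intro ι _ x w
    simp only [key]
    exact rad_posDef hN hM hc Finset.univ x w
  · intro ι _ a p q K B h e hB hw
    simp only [key]
    exact rad_window hN hM hc Finset.univ a p q K h (fun u => ⟨B, fun z => hB z u⟩) e hw

end Pool.Agent.Helper91.RA
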