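import Pool.Agent.Helper16.RA.Cert0
import Pool.Agent.Helper91.RA.PHI

/-! Rows PHI (list form) and FIN of MP_c9c10f, arbitrary colourings. -/

set_option autoImplicit false

namespace Pool.Agent.Helper91.RA

open Pool.Agent.Helper16.RA

theorem sgr_pm (b : Bool) : sgr b = 1 ∨ sgr b = -1 := by
  cases b
  · exact Or.inr rfl
  · exact Or.inl rfl

/-- row PHI in the form of `Helper16.RA` -/
theorem st_PHI : ST_PHI := by
  intro c
  obtain ⟨F, h0, h1, h2, h3⟩ := phi (fun z => sgr (c z)) fun z => sgr_pm (c z)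
  refine ⟨F, ⟨h0, h1, fun n x w => h2 (Fin n) x w⟩, ?_⟩
  rintro L K h ⟨C, hC⟩ hw
  have h4 := h3 (Fin L.length) (fun t => (L[t.1]).2.2) (fun t => (L[t.1]).1)
    (fun t => (L[t.1]).2.1) K C (fun z u => -h z u) 1
    (fun z u => by rw [abs_neg]; exact hC z u) (fun z u hu => by
      have h5 := Fin.sum_univ_fun_getElem L
        (fun t => t.2.2 * (sgr (c (z + u * t.1)) * sgr (c (z + u * t.2.1))))
      have h6 := hw z u hu
      rw [mul_one]
      rw [← h5] at h6
      have h7 : ∀ S : ℝ, S ≤ K + (h z u - h (z + u) u) → S + -h z u - -h (z + u) u ≤ K :=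
        fun S hS => by linarith
      exact h7 _ h6)
  rw [← Fin.sum_univ_fun_getElem L (fun t => t.2.2 * F (Complex.normSq (t.2.1 - t.1)))]
  exact h4

/-- the pattern of the frame `(z, u)` -/
noncomputable def pat (c : ℂ → Bool) (z u : ℂ) : ℕ → ℕ → Bool :=
  fun k i => c (z + u * ((k : ℂ) + (i : ℂ) * Complex.I))

theorem pat_shift (c : ℂ → Bool) (z u : ℂ) :
    pat c (z + u) u = fun k i => pat c z u (k + 1) i := by
  funext k i
  show c _ = c _
  congr 1
  push_cast
  ring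

theorem pat_vld (c : ℂ → Bool)
    (hc : ∀ m n : ℕ, (m = 1 ∨ m = 2) → 1 ≤ n → n ≤ 3 → ¬ Mono c m n) (z u : ℂ) (hu : ‖u‖ = 1) :
    Vld (pat c z u) := by
  rintro k m i n hmn - - ⟨h1, h2, h3⟩
  set z' : ℂ := z + u * ((k : ℂ) + (i : ℂ) * Complex.I) with hz'
  have e0 : pat c z u k i = c z' := rfl
  have e1 : pat c z u (k + m) i = c (z' + m * u) := by
    show c _ = c _
    congr 1
    rw [hz']
    push_cast
    ring
  have e2 : pat c z u k (i + n) = c (z' + n * (Complex.I * u)) := by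
    show c _ = c _
    congr 1
    rw [hz']
    push_cast
    ring
  have e3 : pat c z u (k + m) (i + n) = c (z' + m * u + n * (Complex.I * u)) := by
    show c _ = c _
    congr 1
    rw [hz']
    push_cast
    ring
  rw [e1, e0] at h1
  rw [e2, e0] at h2
  rw [e3, e0] at h3
  rcases hmn with ⟨hm, hn⟩ | ⟨hn, hm⟩
  · exact hc m n hm (by omega) (by omega) ⟨z', u, hu, h1, h2, h3⟩
  · refine hc n m hn (by omega) (by omega) ⟨z' + m * u, Complex.I * u, ?_, ?_, ?_, ?_⟩
    · rw [norm_mul, Complex.norm_I, one_mul, hu]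
    · rw [h3, h1]
    · rw [h1]
      congr 1
      have hI : Complex.I * (Complex.I * u) = -u := by
        rw [← mul_assoc, Complex.I_mul_I, neg_one_mul]
      rw [hI]
      ring
    · rw [h1, ← h2]
      congr 1
      have hI : Complex.I * (Complex.I * u) = -u := by
        rw [← mul_assoc, Complex.I_mul_I, neg_one_mul]
      rw [hI]
      ring

/-- the squared distance of the cells `(0, i)` and `(k, j)` -/
def dd (k i j : ℕ) : ℕ := k * k + ((i - j) * (i - j) + (j - i) * (j - i))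

theorem normSq_dd (k i j : ℕ) :
    Complex.normSq ((k : ℂ) + (j : ℂ) * Complex.I - (i : ℂ) * Complex.I) = (dd k i j : ℝ) := by
  have h1 : Complex.normSq ((k : ℂ) + (j : ℂ) * Complex.I - (i : ℂ) * Complex.I) =
      (k : ℝ) * k + ((j : ℝ) - i) * ((j : ℝ) - i) := by
    rw [Complex.normSq_apply]
    simp
  rw [h1]
  rcases le_total i j with h | h
  · obtain ⟨d, rfl⟩ := Nat.exists_eq_add_of_le h
    have h2 : dd k i (i + d) = k * k + d * d := by
      rw [dd, Nat.sub_eq_zero_of_le (Nat.le_add_right i d), Nat.add_sub_cancel_left]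
      ring
    rw [h2]
    push_cast
    ring
  · obtain ⟨d, rfl⟩ := Nat.exists_eq_add_of_le h
    have h2 : dd k (j + d) j = k * k + d * d := by
      rw [dd, Nat.sub_eq_zero_of_le (Nat.le_add_right j d), Nat.add_sub_cancel_left]
      ring
    rw [h2]
    push_cast
    ring

/-- collecting equal distances -/
theorem collect (f : ℕ → ℝ) :
    (Lst.map fun t => (t.2.2.2 : ℝ) * f (dd t.1 t.2.1 t.2.2.1)).sum =
      (AD.map fun t => (t.2 : ℝ) * f t.1).sum := by
  simp only [Lst, AD, dd, List.map_cons, List.map_nil, List.sum_cons, List.sum_nil]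
  norm_num
  ring

/-- the list for the window transfer -/
noncomputable def LW : List (ℂ × ℂ × ℝ) :=
  Lst.map fun t => ((t.2.1 : ℂ) * Complex.I, (t.1 : ℂ) + (t.2.2.1 : ℂ) * Complex.I, (t.2.2.2 : ℝ))

theorem sgr_sg (b : Bool) : sgr b = (sg b : ℝ) := by
  cases b
  · show (-1 : ℝ) = ((-1 : ℤ) : ℝ)
    norm_num
  · show (1 : ℝ) = ((1 : ℤ) : ℝ)
    norm_num

theorem LW_sum (c : ℂ → Bool) (z u : ℂ) :
    (LW.map fun t => t.2.2 * (sgr (c (z + u * t.1)) * sgr (c (z + u * t.2.1)))).sum =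
      (Qf (pat c z u) : ℝ) := by
  rw [LW, List.map_map, Qf, Int.cast_list_sum, List.map_map]
  congr 1
  refine List.map_congr_left fun t _ => ?_
  show (t.2.2.2 : ℝ) * (sgr (c (z + u * ((t.2.1 : ℂ) * Complex.I))) *
    sgr (c (z + u * ((t.1 : ℂ) + (t.2.2.1 : ℂ) * Complex.I)))) =
    ((t.2.2.2 * (sg (pat c z u 0 t.2.1) * sg (pat c z u t.1 t.2.2.1)) : ℤ) : ℝ)
  have h0 : pat c z u 0 t.2.1 = c (z + u * ((t.2.1 : ℂ) * Complex.I)) := by
    show c _ = c _
    congr 2
    push_cast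
    ring
  rw [h0, sgr_sg, sgr_sg]
  push_cast
  rfl

theorem LW_F (F : ℝ → ℝ) :
    (LW.map fun t => t.2.2 * F (Complex.normSq (t.2.1 - t.1))).sum =
      (AD.map fun t => (t.2 : ℝ) * F (t.1 : ℝ)).sum := by
  rw [← collect fun n => F (n : ℝ), LW, List.map_map]
  congr 1
  refine List.map_congr_left fun t _ => ?_
  show (t.2.2.2 : ℝ) * F (Complex.normSq ((t.1 : ℂ) + (t.2.2.1 : ℂ) * Complex.I -
    (t.2.1 : ℂ) * Complex.I)) = _
  rw [normSq_dd]

/-- row FIN -/
theorem st_FIN : ST_FIN := by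
  rintro ⟨h, hb, hh⟩ hG c hc F hF hW
  refine hG F hF ?_
  rw [← LW_F]
  refine hW LW (-997) (fun z u => (h (pat c z u) : ℝ)) ⟨5000, fun z u => ?_⟩ fun z u hu => ?_
  · have h1 := hb (pat c z u)
    have h2 : ((|h (pat c z u)| : ℤ) : ℝ) ≤ ((5000 : ℤ) : ℝ) := by exact_mod_cast h1
    rw [Int.cast_abs] at h2
    exact_mod_cast h2
  · rw [LW_sum, pat_shift]
    have h1 := hh (pat c z u) (pat_vld c hc z u hu)
    have h2 : ((Qf (pat c z u) + h (fun k i => pat c z u (k + 1) i) - h (pat c z u) : ℤ) : ℝ) ≤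
        ((-997 : ℤ) : ℝ) := by exact_mod_cast h1
    push_cast at h2
    linarith

end Pool.Agent.Helper91.RA
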